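import Pool.Agent.Helper10K1.ML.Main2
import Pool.Agent.Helper24.ML.FIN

/-!
# Project ML: defining systems are the same as homomorphisms to a finite group
-/

set_option autoImplicit false

namespace Pool.Agent.Helper10K1.ML

universe u

open Pool.Agent.Helper24.ML

variable {p n : ℕ}

/-- the entries of a matrix, extended by the ones of the identity -/
def en (X : Matrix (Fin n) (Fin n) (ZMod p)) (i j : ℕ) : ZMod p :=
  if h : i < n ∧ j < n then X ⟨i, h.1⟩ ⟨j, h.2⟩ else if i = j then 1 else 0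

/-- the first matrix -/
def mA (q : QQ.{u} p n) : Matrix (Fin n) (Fin n) (ZMod p) := (q.down.1 : Matrix (Fin n) (Fin n) (ZMod p))

/-- the second matrix -/
def mB (q : QQ.{u} p n) : Matrix (Fin n) (Fin n) (ZMod p) := (q.down.2 : Matrix (Fin n) (Fin n) (ZMod p))

/-- the pairs of the two blocks of a unitriangular matrix -/
def SS (p n : ℕ) : Set (QQ.{u} p n) :=
  {q | (∀ i j, j < i → en (mA q) i j = 0) ∧ (∀ i, en (mA q) i i = 1) ∧
    (∀ i j, j < i → en (mB q) i j = 0) ∧ (∀ i, en (mB q) i i = 1) ∧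
    ∀ i j, 0 < i → 0 < j → i < n → j < n → en (mA q) i j = en (mB q) (i - 1) (j - 1)}

theorem en_mul (X Y : Matrix (Fin n) (Fin n) (ZMod p)) (i j : ℕ) (hi : i < n) (hj : j < n) :
    en (X * Y) i j = ∑ k ∈ Finset.range n, en X i k * en Y k j := by
  rw [en, dif_pos ⟨hi, hj⟩, Matrix.mul_apply,
    ← Fin.sum_univ_eq_sum_range (fun k => en X i k * en Y k j) n]
  refine Finset.sum_congr rfl fun k _ => ?_
  rw [en, dif_pos ⟨hi, k.2⟩, en, dif_pos ⟨k.2, hj⟩]

theorem en_ent (X : Matrix (Fin n) (Fin n) (ZMod p)) (i j : ℕ) (hi : i < n) (hj : j < n) :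
    ent X i j = en X i j := by
  rw [ent, en, dif_pos ⟨hi, hj⟩, dif_pos ⟨hi, hj⟩]

variable {Γ : Type u} [Group Γ] [TopologicalSpace Γ]

theorem rho_mem {φ : ℕ → Γ → ZMod p} {a : ℕ → ℕ → Γ → ZMod p} (h : DefSys p n φ a) (g : Γ) :
    rho h g ∈ SS.{u} p n := by
  have hA : ∀ i j, i < n → j < n → en (mA (rho h g)) i j = ut a g i j := by
    intro i j hi hj
    rw [en, dif_pos ⟨hi, hj⟩]
    rfl
  have hB : ∀ i j, i < n → j < n → en (mB (rho h g)) i j = ut a g (i + 1) (j + 1) := by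
    intro i j hi hj
    rw [en, dif_pos ⟨hi, hj⟩]
    rfl
  refine ⟨fun i j hij => ?_, fun i => ?_, fun i j hij => ?_, fun i => ?_, fun i j h1 h2 h3 h4 => ?_⟩
  · by_cases h1 : i < n
    · rw [hA i j h1 (by omega), ut_gt a g hij]
    · rw [en, dif_neg (fun h => h1 h.1), if_neg (by omega)]
  · by_cases h1 : i < n
    · rw [hA i i h1 h1, ut_diag]
    · rw [en, dif_neg (fun h => h1 h.1), if_pos rfl]
  · by_cases h1 : i < n
    · rw [hB i j h1 (by omega), ut_gt a g (by omega)]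
    · rw [en, dif_neg (fun h => h1 h.1), if_neg (by omega)]
  · by_cases h1 : i < n
    · rw [hB i i h1 h1, ut_diag]
    · rw [en, dif_neg (fun h => h1 h.1), if_pos rfl]
  · rw [hA i j h3 h4, hB _ _ (by omega) (by omega), Nat.sub_add_cancel h1, Nat.sub_add_cancel h2]

/-- the cochains of a homomorphism -/
def aOf (ρ : Γ →* QQ.{u} p n) (i j : ℕ) (g : Γ) : ZMod p :=
  if j < n then - en (mA (ρ g)) i j else - en (mB (ρ g)) (i - 1) (j - 1)

theorem aOf_A (ρ : Γ →* QQ.{u} p n) (i j : ℕ) (g : Γ) (hj : j < n) :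
    aOf ρ i j g = - en (mA (ρ g)) i j := by rw [aOf, if_pos hj]

theorem aOf_B (ρ : Γ →* QQ.{u} p n) (hS : ∀ g, ρ g ∈ SS.{u} p n) (i j : ℕ) (g : Γ) (hi : 0 < i)
    (hij : i < j) (hj : j ≤ n) :
    aOf ρ i j g = - en (mB (ρ g)) (i - 1) (j - 1) := by
  rw [aOf]
  split_ifs with h
  · rw [(hS g).2.2.2.2 i j hi (by omega) (by omega) h]
  · rfl

theorem mA_mul (ρ : Γ →* QQ.{u} p n) (g h : Γ) : mA (ρ (g * h)) = mA (ρ g) * mA (ρ h) := by
  rw [map_mul]
  rfl

theorem mB_mul (ρ : Γ →* QQ.{u} p n) (g h : Γ) : mB (ρ (g * h)) = mB (ρ g) * mB (ρ h) := by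
  rw [map_mul]
  rfl

theorem aOf_defSys (ρ : Γ →* QQ.{u} p n) (hlc : IsLocallyConstant ρ)
    (hS : ∀ g, ρ g ∈ SS.{u} p n) : DefSys p n (fun i => aOf ρ i (i + 1)) (aOf ρ) where
  lc := fun i j _ _ _ => by
    have := hlc.comp fun q : QQ.{u} p n =>
      if j < n then - en (mA q) i j else - en (mB q) (i - 1) (j - 1)
    exact this
  diag := fun i _ => rfl
  rel := by
    intro i j hij hj h0 g h
    by_cases hjn : j < n
    · have h1 := sum_tri n (en (mA (ρ g))) (en (mA (ρ h))) (hS g).1 (hS g).2.1 (hS h).1 (hS h).2.1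
        i j hij hjn
      rw [← en_mul _ _ i j (by omega) hjn, ← mA_mul] at h1
      have h2 : ∑ k ∈ Finset.Ioo i j, aOf ρ i k g * aOf ρ k j h =
          ∑ k ∈ Finset.Ioo i j, en (mA (ρ g)) i k * en (mA (ρ h)) k j := by
        refine Finset.sum_congr rfl fun k hk => ?_
        rw [Finset.mem_Ioo] at hk
        rw [aOf_A _ _ _ _ (by omega), aOf_A _ _ _ _ hjn, neg_mul_neg]
      rw [h2, aOf_A _ _ _ _ hjn, aOf_A _ _ _ _ hjn, aOf_A _ _ _ _ hjn, h1]
      ring
    · have hjn' : j = n := by omega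
      have hi : 0 < i := by
        rcases Nat.eq_zero_or_pos i with h | h
        · exact absurd (by rw [h, hjn']) h0
        · exact h
      have h1 := sum_tri n (en (mB (ρ g))) (en (mB (ρ h))) (hS g).2.2.1 (hS g).2.2.2.1 (hS h).2.2.1
        (hS h).2.2.2.1 (i - 1) (j - 1) (by omega) (by omega)
      rw [← en_mul _ _ _ _ (by omega) (by omega), ← mB_mul] at h1
      have h2 : ∑ k ∈ Finset.Ioo i j, aOf ρ i k g * aOf ρ k j h =
          ∑ k ∈ Finset.Ioo (i - 1) (j - 1), en (mB (ρ g)) (i - 1) k * en (mB (ρ h)) k (j - 1) := by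
        have h3 : Finset.Ioo i j = (Finset.Ioo (i - 1) (j - 1)).map (addRightEmbedding 1) := by
          rw [Finset.map_add_right_Ioo, Nat.sub_add_cancel hi, Nat.sub_add_cancel (by omega)]
        rw [h3, Finset.sum_map]
        refine Finset.sum_congr rfl fun k hk => ?_
        rw [Finset.mem_Ioo] at hk
        rw [addRightEmbedding_apply, aOf_B ρ hS _ _ _ hi (by omega) (by omega),
          aOf_B ρ hS _ _ _ (by omega) (by omega) hj, neg_mul_neg, Nat.add_sub_cancel]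
      rw [h2, aOf_B ρ hS _ _ _ hi hij hj, aOf_B ρ hS _ _ _ hi hij hj, aOf_B ρ hS _ _ _ hi hij hj, h1]
      ring

theorem aOf_val (ρ : Γ →* QQ.{u} p n) (hS : ∀ g, ρ g ∈ SS.{u} p n) (g h : Γ) :
    val p n (aOf ρ) g h = cQ p n (ρ g) (ρ h) := by
  refine Finset.sum_congr rfl fun k hk => ?_
  rw [Finset.mem_Ioo] at hk
  rw [aOf_A _ _ _ _ hk.2, aOf_B ρ hS _ _ _ hk.1 hk.2 le_rfl, neg_mul_neg,
    en_ent _ _ _ (by omega) hk.2, en_ent _ _ _ (by omega) (by omega)]
  rfl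

theorem t_FIN2 (hM : MAINQ2.{u}) (p n : ℕ) (hp : p.Prime) :
    (∀ (F : Type u) [Field F] (ζ : F), IsPrimitiveRoot ζ p →
      ∀ (φ : ℕ → Gp p F → ZMod p) (a : ℕ → ℕ → Gp p F → ZMod p), DefSys p n φ a →
        ∃ m, SL p m (val p n a)) →
    ∃ M : ℕ, ∀ (F : Type u) [Field F] (ζ : F), IsPrimitiveRoot ζ p →
      ∀ (φ : ℕ → Gp p F → ZMod p) (a : ℕ → ℕ → Gp p F → ZMod p), DefSys p n φ a →
        SL p M (val p n a) := by
  intro hfin
  have : Fact p.Prime := ⟨hp⟩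
  obtain ⟨M, hM⟩ := hM p hp (QQ.{u} p n) (SS p n) (cQ p n) (fun F _ ζ hζ ρ hρ hS => by
    obtain ⟨m, hm⟩ := hfin F ζ hζ _ _ (aOf_defSys ρ hρ hS)
    refine ⟨m, ?_⟩
    have h2 : (fun g k => cQ p n (ρ g) (ρ k)) = val p n (aOf ρ) := by
      funext g k
      exact (aOf_val ρ hS g k).symm
    rw [h2]
    exact hm)
  refine ⟨M, fun F _ ζ hζ φ a h => ?_⟩
  have h1 := hM F ζ hζ (rho h) (rho_lc h) (rho_mem h)
  have h2 : (fun g k => cQ p n (rho h g) (rho h k)) = val p n a := by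
    funext g k
    exact cQ_rho h g k
  rw [h2] at h1
  exact h1

end Pool.Agent.Helper10K1.ML
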