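import Pool.Agent.Helper10K1.ML.Stm

/-!
# Project ML: the ultraproduct argument (piece MAIN)
-/

set_option autoImplicit false

namespace Pool.Agent.Helper10K1.ML

universe u

open Filter

theorem SL.mono {p m M : ℕ} {Γ : Type u} [Group Γ] [TopologicalSpace Γ] {c : Γ → Γ → ZMod p}
    (h : SL p m c) (hm : m ≤ M) : SL p M c := by
  obtain ⟨ψ, ψ', b, h1, h2, h3, h4⟩ := h
  obtain ⟨d, rfl⟩ := Nat.exists_eq_add_of_le hm
  refine ⟨Fin.append ψ fun _ _ => 0, Fin.append ψ' fun _ _ => 0, b, ?_, ?_, h3, ?_⟩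
  · intro i
    refine Fin.addCases (fun i => ?_) (fun i => ?_) i
    · rw [Fin.append_left]
      exact h1 i
    · rw [Fin.append_right]
      exact ⟨IsLocallyConstant.const 0, fun _ _ => (add_zero 0).symm⟩
  · intro i
    refine Fin.addCases (fun i => ?_) (fun i => ?_) i
    · rw [Fin.append_left]
      exact h2 i
    · rw [Fin.append_right]
      exact ⟨IsLocallyConstant.const 0, fun _ _ => (add_zero 0).symm⟩
  · intro g h
    rw [h4 g h, Fin.sum_univ_add]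
    congr 1
    simp only [Fin.append_left, Fin.append_right, mul_zero, Finset.sum_const_zero, add_zero]

/-- overspill -/
theorem overspill {F : ℕ → Type u} (U : Ultrafilter ℕ) (P : ∀ N, F N → F N → Prop)
    (h : ∀ g h : ∀ N, F N, ∀ᶠ N in U, P N (g N) (h N)) (g0 : ∀ N, F N) :
    ∀ᶠ N in U, ∀ x y, P N x y := by
  classical
  by_contra hcon
  have h1 : ∀ᶠ N in U, ¬ ∀ x y, P N x y := Ultrafilter.eventually_not.2 hcon
  have h2 : ∀ N, ∃ x y : F N, (¬ ∀ x y, P N x y) → ¬ P N x y := by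
    intro N
    by_cases hN : ∀ x y, P N x y
    · exact ⟨g0 N, g0 N, fun h => absurd hN h⟩
    · have hN' := hN
      push Not at hN'
      obtain ⟨x, y, hxy⟩ := hN'
      exact ⟨x, y, fun _ => hxy⟩
  choose x y hxy using h2
  obtain ⟨N, hN⟩ := (h1.and (h x y)).exists
  exact hxy N hN.1 hN.2

/-- the image of a homomorphism from the maximal pro-`p` quotient -/
theorem pow_of_P1 (hP1 : S_P1.{u}) {p : ℕ} (hp : p.Prime) {F : Type u} [Field F] {Q : Type u}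
    [Group Q] [Finite Q] (ρ : Gp p F →* Q) (hρ : IsLocallyConstant ρ) (g : Gp p F) :
    ∃ k, ρ g ^ p ^ k = 1 := by
  classical
  have : Fact p.Prime := ⟨hp⟩
  obtain ⟨e⟩ : Nonempty (Q ≃ Fin (Nat.card Q)) := ⟨Finite.equivFin Q⟩
  obtain ⟨N, hN, -, ⟨k, hk⟩, hf⟩ := hP1 p F hp (Fin (Nat.card Q))
    (fun i x => if ρ x = e.symm i then 1 else 0) (fun i => hρ.comp fun q => if q = e.symm i then 1 else 0)
  refine ⟨k, ?_⟩
  obtain ⟨γ, rfl⟩ := QuotientGroup.mk_surjective g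
  have h1 : γ ^ p ^ k ∈ N := by
    rw [← hk]
    exact Subgroup.pow_index_mem N γ
  have h2 := hf (e 1) (1 : G F) (γ ^ p ^ k) (by rw [inv_one, one_mul]; exact h1)
  simp only [Equiv.symm_apply_apply] at h2
  rw [if_pos (by rw [QuotientGroup.mk_one, map_one])] at h2
  by_contra hne
  rw [← map_pow, ← QuotientGroup.mk_pow] at hne
  rw [if_neg hne] at h2
  exact one_ne_zero h2

theorem t_MAIN : S_MAIN.{u} := by
  intro hSC hACT hRES hPRIM hUP hDOWN hP1 hP2 p hp hMS Q _ _ c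
  classical
  by_contra hcon
  push Not at hcon
  choose F instF ζ hζ ρ hρ hc hSL using hcon
  obtain ⟨U, hU⟩ : ∃ U : Ultrafilter ℕ, (U : Filter ℕ) ≤ atTop :=
    ⟨hyperfilter ℕ, Nat.hyperfilter_le_atTop⟩
  obtain ⟨j, R, hR⟩ := hRES hSC hACT F U
  -- the root of unity
  have hζL : IsPrimitiveRoot (cls F U ζ) p := by
    refine ⟨?_, fun l hl => ?_⟩
    · rw [← map_pow, ← map_one (Ideal.Quotient.mk (UI F U))]
      refine (cls_eq F U _ _).2 (Eventually.of_forall fun N => ?_)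
      exact (hζ N).pow_eq_one
    · rw [← map_pow, ← map_one (Ideal.Quotient.mk (UI F U))] at hl
      obtain ⟨N, hN⟩ := ((cls_eq F U _ _).1 hl).exists
      exact (hζ N).dvd_of_pow_eq_one l hN
  -- the homomorphism of the ultraproduct
  have hmk : ∀ (K : Type u) [Field K], Continuous (QuotientGroup.mk : G K → Gp p K) :=
    fun K _ => continuous_quotient_mk'
  obtain ⟨ρ0, hρ0⟩ : ∃ ρ0 : ∀ N, G (F N) →* Q, ∀ N g, ρ0 N g = ρ N (QuotientGroup.mk g) :=
    ⟨fun N => (ρ N).comp (QuotientGroup.mk' _), fun N g => rfl⟩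
  have hρ0o : ∀ N, IsOpen ((ρ0 N).ker : Set (G (F N))) := by
    intro N
    have h1 : ((ρ0 N).ker : Set (G (F N))) = QuotientGroup.mk ⁻¹' (ρ N ⁻¹' {1}) := by
      ext g
      rw [SetLike.mem_coe, MonoidHom.mem_ker, hρ0]
      rfl
    rw [h1]
    exact ((hρ N).isOpen_fiber 1).preimage (hmk (F N))
  obtain ⟨σ, hσo, hσ⟩ := hUP hPRIM F U j R hR Q ρ0 hρ0o
  have hdense : ∀ γ, ∃ g, σ (R g) = σ γ := by
    intro γ
    obtain ⟨g, hg⟩ := hR.dense σ.ker inferInstance hσo γ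
    refine ⟨g, ?_⟩
    rw [MonoidHom.mem_ker, map_mul, map_inv] at hg
    exact inv_mul_eq_one.1 hg
  have hpow : ∀ γ, ∃ k, σ γ ^ p ^ k = 1 := by
    intro γ
    obtain ⟨g, hg⟩ := hdense γ
    obtain ⟨N, hN⟩ := (hσ g).exists
    rw [← hg, ← hN, hρ0]
    exact pow_of_P1 hP1 hp (ρ N) (hρ N) _
  obtain ⟨σ', hσ', hσlc⟩ := hP2 p (Ul F U) hp Q σ hσo hpow
  have hcoc : IsCocycle p (fun g h => c (σ' g) (σ' h)) := by
    intro x y z
    obtain ⟨x, rfl⟩ := QuotientGroup.mk_surjective x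
    obtain ⟨y, rfl⟩ := QuotientGroup.mk_surjective y
    obtain ⟨z, rfl⟩ := QuotientGroup.mk_surjective z
    simp only [map_mul, hσ']
    obtain ⟨g, hg⟩ := hdense x
    obtain ⟨h, hh⟩ := hdense y
    obtain ⟨k, hk⟩ := hdense z
    obtain ⟨N, ⟨hN1, hN2⟩, hN3⟩ := (((hσ g).and (hσ h)).and (hσ k)).exists
    have h1 := hc N (QuotientGroup.mk (g N)) (QuotientGroup.mk (h N)) (QuotientGroup.mk (k N))
    simp only [map_mul, ← hρ0] at h1
    rw [hN1, hN2, hN3, hg, hh, hk] at h1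
    exact h1
  have hlc : IsLocallyConstant (fun x : Gp p (Ul F U) × Gp p (Ul F U) => c (σ' x.1) (σ' x.2)) := by
    have h1 : IsLocallyConstant (fun x : Gp p (Ul F U) × Gp p (Ul F U) => (σ' x.1, σ' x.2)) :=
      (hσlc.comp_continuous continuous_fst).prodMk (hσlc.comp_continuous continuous_snd)
    exact h1.comp fun q : Q × Q => c q.1 q.2
  obtain ⟨m, ψ, ψ', b, h1, h2, h3, h4⟩ := hMS (Ul F U) (cls F U ζ) hζL _ hlc hcoc
  -- a finite quotient
  obtain ⟨N0, hN0, hN0o, ⟨k, hk⟩, hf⟩ := hP1 p (Ul F U) hp (Fin m ⊕ Fin m ⊕ Unit)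
    (Sum.elim ψ (Sum.elim ψ' fun _ => b)) (by
      rintro (i | i | i)
      · exact (h1 i).1
      · exact (h2 i).1
      · exact h3)
  have hppos : 0 < p := hp.pos
  have hfin : N0.FiniteIndex := ⟨by rw [hk]; positivity⟩
  obtain ⟨τ, hτlc, hτ⟩ := hDOWN hPRIM F U j R hR (G (Ul F U) ⧸ N0) (QuotientGroup.mk' N0)
    (by rw [QuotientGroup.ker_mk']; exact hN0o)
  -- the functions on the quotient
  have hout : ∀ i : Fin m ⊕ Fin m ⊕ Unit, ∃ f' : G (Ul F U) ⧸ N0 → ZMod p, ∀ γ : G (Ul F U),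
      f' (QuotientGroup.mk γ) = (Sum.elim ψ (Sum.elim ψ' fun _ => b)) i (QuotientGroup.mk γ) := by
    intro i
    refine ⟨fun q => (Sum.elim ψ (Sum.elim ψ' fun _ => b)) i (QuotientGroup.mk q.out), fun γ => ?_⟩
    refine hf i _ _ ?_
    rw [← QuotientGroup.eq]
    exact Quotient.out_eq' _
  choose f' hf' using hout
  have hψ : ∀ i γ, f' (Sum.inl i) (QuotientGroup.mk γ) = ψ i (QuotientGroup.mk γ) :=
    fun i γ => hf' (Sum.inl i) γ
  have hψ' : ∀ i γ, f' (Sum.inr (Sum.inl i)) (QuotientGroup.mk γ) = ψ' i (QuotientGroup.mk γ) :=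
    fun i γ => hf' (Sum.inr (Sum.inl i)) γ
  have hb : ∀ γ, f' (Sum.inr (Sum.inr ())) (QuotientGroup.mk γ) = b (QuotientGroup.mk γ) :=
    fun γ => hf' (Sum.inr (Sum.inr ())) γ
  -- overspill
  have ho1 : ∀ᶠ N in U, ∀ x y, τ N (x * y) = τ N x * τ N y := by
    refine overspill U _ (fun g h => ?_) fun N => 1
    filter_upwards [hτ g, hτ h, hτ (g * h)] with N e1 e2 e3
    rw [e1, e2, ← map_mul, ← map_mul, ← e3]
    rfl
  have ho2 : ∀ᶠ N in U, ∀ x y, c (ρ0 N x) (ρ0 N y) =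
      ∑ i, f' (Sum.inl i) (τ N x) * f' (Sum.inr (Sum.inl i)) (τ N y) +
        (f' (Sum.inr (Sum.inr ())) (τ N x) + f' (Sum.inr (Sum.inr ())) (τ N y) -
          f' (Sum.inr (Sum.inr ())) (τ N (x * y))) := by
    refine overspill U _ (fun g h => ?_) fun N => 1
    filter_upwards [hτ g, hτ h, hτ (g * h), hσ g, hσ h] with N e1 e2 e3 e4 e5
    have e3' : τ N (g N * h N) = QuotientGroup.mk (R g * R h) := by
      rw [← map_mul]
      exact e3
    rw [e4, e5, e1, e2, e3']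
    simp only [QuotientGroup.mk'_apply, hψ, hψ', hb]
    have := h4 (QuotientGroup.mk (R g)) (QuotientGroup.mk (R h))
    simp only [hσ'] at this
    rw [this]
    rfl
  obtain ⟨N, ⟨hN1, hN2⟩, hN3⟩ := ((ho1.and ho2).and (hU (eventually_ge_atTop m))).exists
  -- the homomorphism at `N`
  have hone : τ N 1 = 1 := by
    have := hN1 1 1
    rw [mul_one] at this
    exact left_eq_mul.1 this
  obtain ⟨τh, hτh⟩ : ∃ τh : G (F N) →* G (Ul F U) ⧸ N0, ∀ g, τh g = τ N g :=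
    ⟨{ toFun := τ N, map_one' := hone, map_mul' := hN1 }, fun _ => rfl⟩
  have hτo : IsOpen (τh.ker : Set (G (F N))) := by
    have e1 : (τh.ker : Set (G (F N))) = τ N ⁻¹' {1} := by
      ext g
      rw [SetLike.mem_coe, MonoidHom.mem_ker, hτh]
      rfl
    rw [e1]
    exact (hτlc N).isOpen_fiber 1
  have hcard : Nat.card (G (Ul F U) ⧸ N0) = p ^ k := hk
  obtain ⟨τ', hτ', hτ'lc⟩ := hP2 p (F N) hp (G (Ul F U) ⧸ N0) τh hτo (fun g =>
    ⟨k, by rw [← hcard]; exact pow_card_eq_one'⟩)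
  apply hSL N
  refine SL.mono (m := m) ?_ hN3
  refine ⟨fun i x => f' (Sum.inl i) (τ' x), fun i x => f' (Sum.inr (Sum.inl i)) (τ' x),
    fun x => f' (Sum.inr (Sum.inr ())) (τ' x), fun i => ⟨hτ'lc.comp _, fun x y => ?_⟩,
    fun i => ⟨hτ'lc.comp _, fun x y => ?_⟩, hτ'lc.comp _, fun x y => ?_⟩
  · show f' (Sum.inl i) (τ' (x * y)) = f' (Sum.inl i) (τ' x) + f' (Sum.inl i) (τ' y)
    rw [map_mul]
    obtain ⟨s, hs⟩ := QuotientGroup.mk_surjective (τ' x)
    obtain ⟨t, ht⟩ := QuotientGroup.mk_surjective (τ' y)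
    rw [← hs, ← ht, ← QuotientGroup.mk_mul, hψ, hψ, hψ, QuotientGroup.mk_mul, (h1 i).2]
  · show f' (Sum.inr (Sum.inl i)) (τ' (x * y)) =
      f' (Sum.inr (Sum.inl i)) (τ' x) + f' (Sum.inr (Sum.inl i)) (τ' y)
    rw [map_mul]
    obtain ⟨s, hs⟩ := QuotientGroup.mk_surjective (τ' x)
    obtain ⟨t, ht⟩ := QuotientGroup.mk_surjective (τ' y)
    rw [← hs, ← ht, ← QuotientGroup.mk_mul, hψ', hψ', hψ', QuotientGroup.mk_mul, (h2 i).2]
  · obtain ⟨x, rfl⟩ := QuotientGroup.mk_surjective x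
    obtain ⟨y, rfl⟩ := QuotientGroup.mk_surjective y
    have e1 := hN2 x y
    rw [hρ0, hρ0] at e1
    simp only [← QuotientGroup.mk_mul, hτ', hτh]
    exact e1

end Pool.Agent.Helper10K1.ML
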