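import Pool.Agent.Helper10K1.ML.Main

/-!
# Project ML: the ultraproduct argument, without the theorem of Merkurjev and Suslin
-/

set_option autoImplicit false

namespace Pool.Agent.Helper10K1.ML

universe u

open Filter

/-- the bound for one finite group and one cochain on it, from the finiteness over each field -/
def MAINQ2 : Prop := ∀ p : ℕ, p.Prime → ∀ (Q : Type u) [Group Q] [Finite Q] (S : Set Q)
  (c : Q → Q → ZMod p),
  (∀ (F : Type u) [Field F] (ζ : F), IsPrimitiveRoot ζ p →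
    ∀ ρ : Gp p F →* Q, IsLocallyConstant ρ → (∀ g, ρ g ∈ S) →
      ∃ m, SL p m (fun g h => c (ρ g) (ρ h))) →
  ∃ M : ℕ, ∀ (F : Type u) [Field F] (ζ : F), IsPrimitiveRoot ζ p →
    ∀ ρ : Gp p F →* Q, IsLocallyConstant ρ → (∀ g, ρ g ∈ S) →
      SL p M (fun g h => c (ρ g) (ρ h))

theorem t_MAIN2 : S_SC.{u} → S_ACT.{u} → S_RES.{u} → S_PRIM.{u} → S_UP.{u} → S_DOWN.{u} →
    S_P1.{u} → S_P2.{u} → MAINQ2.{u} := by
  intro hSC hACT hRES hPRIM hUP hDOWN hP1 hP2 p hp Q _ _ S c hMS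
  classical
  by_contra hcon
  push Not at hcon
  choose F instF ζ hζ ρ hρ hS hSL using hcon
  obtain ⟨U, hU⟩ : ∃ U : Ultrafilter ℕ, (U : Filter ℕ) ≤ atTop :=
    ⟨hyperfilter ℕ, Nat.hyperfilter_le_atTop⟩
  obtain ⟨j, R, hR⟩ := hRES hSC hACT F U
  -- the root of unity
  have hζL : IsPrimitiveRoot (cls F U ζ) p := by
    refine ⟨?_, fun l hl => ?_⟩
    · rw [← map_pow, ← map_one (Ideal.Quotient.mk (UI F U))]
      refine (cls_eq F U _ _).2 (Eventually.of_forall fun N => ?_)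
      exact (hζ N).pow_eq_one
    · rw [← map_pow, ← map_one (Ideal.Quotient.mk (UI F U))] at hl
      obtain ⟨N, hN⟩ := ((cls_eq F U _ _).1 hl).exists
      exact (hζ N).dvd_of_pow_eq_one l hN
  -- the homomorphism of the ultraproduct
  have hmk : ∀ (K : Type u) [Field K], Continuous (QuotientGroup.mk : G K → Gp p K) :=
    fun K _ => continuous_quotient_mk'
  obtain ⟨ρ0, hρ0⟩ : ∃ ρ0 : ∀ N, G (F N) →* Q, ∀ N g, ρ0 N g = ρ N (QuotientGroup.mk g) :=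
    ⟨fun N => (ρ N).comp (QuotientGroup.mk' _), fun N g => rfl⟩
  have hρ0o : ∀ N, IsOpen ((ρ0 N).ker : Set (G (F N))) := by
    intro N
    have h1 : ((ρ0 N).ker : Set (G (F N))) = QuotientGroup.mk ⁻¹' (ρ N ⁻¹' {1}) := by
      ext g
      rw [SetLike.mem_coe, MonoidHom.mem_ker, hρ0]
      rfl
    rw [h1]
    exact ((hρ N).isOpen_fiber 1).preimage (hmk (F N))
  obtain ⟨σ, hσo, hσ⟩ := hUP hPRIM F U j R hR Q ρ0 hρ0o
  have hdense : ∀ γ, ∃ g, σ (R g) = σ γ := by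
    intro γ
    obtain ⟨g, hg⟩ := hR.dense σ.ker inferInstance hσo γ
    refine ⟨g, ?_⟩
    rw [MonoidHom.mem_ker, map_mul, map_inv] at hg
    exact inv_mul_eq_one.1 hg
  have hpow : ∀ γ, ∃ k, σ γ ^ p ^ k = 1 := by
    intro γ
    obtain ⟨g, hg⟩ := hdense γ
    obtain ⟨N, hN⟩ := (hσ g).exists
    rw [← hg, ← hN, hρ0]
    exact pow_of_P1 hP1 hp (ρ N) (hρ N) _
  obtain ⟨σ', hσ', hσlc⟩ := hP2 p (Ul F U) hp Q σ hσo hpow
  have hσS : ∀ g, σ' g ∈ S := by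
    intro x
    obtain ⟨x, rfl⟩ := QuotientGroup.mk_surjective x
    obtain ⟨g, hg⟩ := hdense x
    obtain ⟨N, hN⟩ := (hσ g).exists
    rw [hσ', ← hg, ← hN, hρ0]
    exact hS N _
  obtain ⟨m, ψ, ψ', b, h1, h2, h3, h4⟩ := hMS (Ul F U) (cls F U ζ) hζL σ' hσlc hσS
  -- a finite quotient
  obtain ⟨N0, hN0, hN0o, ⟨k, hk⟩, hf⟩ := hP1 p (Ul F U) hp (Fin m ⊕ Fin m ⊕ Unit)
    (Sum.elim ψ (Sum.elim ψ' fun _ => b)) (by
      rintro (i | i | i)
      · exact (h1 i).1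
      · exact (h2 i).1
      · exact h3)
  have hppos : 0 < p := hp.pos
  have hfin : N0.FiniteIndex := ⟨by rw [hk]; positivity⟩
  obtain ⟨τ, hτlc, hτ⟩ := hDOWN hPRIM F U j R hR (G (Ul F U) ⧸ N0) (QuotientGroup.mk' N0)
    (by rw [QuotientGroup.ker_mk']; exact hN0o)
  -- the functions on the quotient
  have hout : ∀ i : Fin m ⊕ Fin m ⊕ Unit, ∃ f' : G (Ul F U) ⧸ N0 → ZMod p, ∀ γ : G (Ul F U),
      f' (QuotientGroup.mk γ) = (Sum.elim ψ (Sum.elim ψ' fun _ => b)) i (QuotientGroup.mk γ) := by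
    intro i
    refine ⟨fun q => (Sum.elim ψ (Sum.elim ψ' fun _ => b)) i (QuotientGroup.mk q.out), fun γ => ?_⟩
    refine hf i _ _ ?_
    rw [← QuotientGroup.eq]
    exact Quotient.out_eq' _
  choose f' hf' using hout
  have hψ : ∀ i γ, f' (Sum.inl i) (QuotientGroup.mk γ) = ψ i (QuotientGroup.mk γ) :=
    fun i γ => hf' (Sum.inl i) γ
  have hψ' : ∀ i γ, f' (Sum.inr (Sum.inl i)) (QuotientGroup.mk γ) = ψ' i (QuotientGroup.mk γ) :=
    fun i γ => hf' (Sum.inr (Sum.inl i)) γ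
  have hb : ∀ γ, f' (Sum.inr (Sum.inr ())) (QuotientGroup.mk γ) = b (QuotientGroup.mk γ) :=
    fun γ => hf' (Sum.inr (Sum.inr ())) γ
  -- overspill
  have ho1 : ∀ᶠ N in U, ∀ x y, τ N (x * y) = τ N x * τ N y := by
    refine overspill U _ (fun g h => ?_) fun N => 1
    filter_upwards [hτ g, hτ h, hτ (g * h)] with N e1 e2 e3
    rw [e1, e2, ← map_mul, ← map_mul, ← e3]
    rfl
  have ho2 : ∀ᶠ N in U, ∀ x y, c (ρ0 N x) (ρ0 N y) =
      ∑ i, f' (Sum.inl i) (τ N x) * f' (Sum.inr (Sum.inl i)) (τ N y) +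
        (f' (Sum.inr (Sum.inr ())) (τ N x) + f' (Sum.inr (Sum.inr ())) (τ N y) -
          f' (Sum.inr (Sum.inr ())) (τ N (x * y))) := by
    refine overspill U _ (fun g h => ?_) fun N => 1
    filter_upwards [hτ g, hτ h, hτ (g * h), hσ g, hσ h] with N e1 e2 e3 e4 e5
    have e3' : τ N (g N * h N) = QuotientGroup.mk (R g * R h) := by
      rw [← map_mul]
      exact e3
    rw [e4, e5, e1, e2, e3']
    simp only [QuotientGroup.mk'_apply, hψ, hψ', hb]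
    have := h4 (QuotientGroup.mk (R g)) (QuotientGroup.mk (R h))
    simp only [hσ'] at this
    rw [this]
    rfl
  obtain ⟨N, ⟨hN1, hN2⟩, hN3⟩ := ((ho1.and ho2).and (hU (eventually_ge_atTop m))).exists
  -- the homomorphism at `N`
  have hone : τ N 1 = 1 := by
    have := hN1 1 1
    rw [mul_one] at this
    exact left_eq_mul.1 this
  obtain ⟨τh, hτh⟩ : ∃ τh : G (F N) →* G (Ul F U) ⧸ N0, ∀ g, τh g = τ N g :=
    ⟨{ toFun := τ N, map_one' := hone, map_mul' := hN1 }, fun _ => rfl⟩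
  have hτo : IsOpen (τh.ker : Set (G (F N))) := by
    have e1 : (τh.ker : Set (G (F N))) = τ N ⁻¹' {1} := by
      ext g
      rw [SetLike.mem_coe, MonoidHom.mem_ker, hτh]
      rfl
    rw [e1]
    exact (hτlc N).isOpen_fiber 1
  have hcard : Nat.card (G (Ul F U) ⧸ N0) = p ^ k := hk
  obtain ⟨τ', hτ', hτ'lc⟩ := hP2 p (F N) hp (G (Ul F U) ⧸ N0) τh hτo (fun g =>
    ⟨k, by rw [← hcard]; exact pow_card_eq_one'⟩)
  apply hSL N
  refine SL.mono (m := m) ?_ hN3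
  refine ⟨fun i x => f' (Sum.inl i) (τ' x), fun i x => f' (Sum.inr (Sum.inl i)) (τ' x),
    fun x => f' (Sum.inr (Sum.inr ())) (τ' x), fun i => ⟨hτ'lc.comp _, fun x y => ?_⟩,
    fun i => ⟨hτ'lc.comp _, fun x y => ?_⟩, hτ'lc.comp _, fun x y => ?_⟩
  · show f' (Sum.inl i) (τ' (x * y)) = f' (Sum.inl i) (τ' x) + f' (Sum.inl i) (τ' y)
    rw [map_mul]
    obtain ⟨s, hs⟩ := QuotientGroup.mk_surjective (τ' x)
    obtain ⟨t, ht⟩ := QuotientGroup.mk_surjective (τ' y)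
    rw [← hs, ← ht, ← QuotientGroup.mk_mul, hψ, hψ, hψ, QuotientGroup.mk_mul, (h1 i).2]
  · show f' (Sum.inr (Sum.inl i)) (τ' (x * y)) =
      f' (Sum.inr (Sum.inl i)) (τ' x) + f' (Sum.inr (Sum.inl i)) (τ' y)
    rw [map_mul]
    obtain ⟨s, hs⟩ := QuotientGroup.mk_surjective (τ' x)
    obtain ⟨t, ht⟩ := QuotientGroup.mk_surjective (τ' y)
    rw [← hs, ← ht, ← QuotientGroup.mk_mul, hψ', hψ', hψ', QuotientGroup.mk_mul, (h2 i).2]
  · obtain ⟨x, rfl⟩ := QuotientGroup.mk_surjective x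
    obtain ⟨y, rfl⟩ := QuotientGroup.mk_surjective y
    have e1 := hN2 x y
    rw [hρ0, hρ0] at e1
    simp only [← QuotientGroup.mk_mul, hτ', hτh]
    exact e1

end Pool.Agent.Helper10K1.ML
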