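import Mathlib

/-!
# Project ML: the symbol length of Massey products (MP_fac77f_nt), full positive answer

Given the Merkurjev-Suslin theorem (`MS`), an ultraproduct argument gives a bound `M(n, p)`.

Notation. `G F` is the absolute Galois group (Krull topology), `Np p G` the intersection of the open
normal subgroups of `p`-power index, `Gp p F = G F ⧸ Np p (G F)` the maximal pro-`p` quotient.
Cochains with values in the discrete group `ZMod p` are locally constant functions.
-/

set_option autoImplicit false

namespace Pool.Agent.Helper10K1.ML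

universe u

open Filter

/-- the absolute Galois group, with the Krull topology -/
abbrev G (F : Type u) [Field F] : Type u := Gal(SeparableClosure F/F)

/-- the intersection of the open normal subgroups of `p`-power index -/
def Np (p : ℕ) (Γ : Type u) [Group Γ] [TopologicalSpace Γ] : Subgroup Γ :=
  ⨅ N : {N : Subgroup Γ // N.Normal ∧ IsOpen (N : Set Γ) ∧ ∃ k, N.index = p ^ k}, N.1

instance (p : ℕ) (Γ : Type u) [Group Γ] [TopologicalSpace Γ] : (Np p Γ).Normal :=
  Subgroup.normal_iInf_normal fun N => N.2.1

/-- the maximal pro-`p` quotient of the absolute Galois group, with the quotient topology -/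
abbrev Gp (p : ℕ) (F : Type u) [Field F] : Type u := G F ⧸ Np p (G F)

/-- The 2-cochain `c` is cohomologous to the sum of `m` cup products of elements of
`H¹(Γ, ZMod p) = Hom(Γ, ZMod p)`: its symbol length is at most `m`. -/
def SL (p m : ℕ) {Γ : Type u} [Group Γ] [TopologicalSpace Γ] (c : Γ → Γ → ZMod p) : Prop :=
  ∃ (ψ ψ' : Fin m → Γ → ZMod p) (b : Γ → ZMod p),
    (∀ i, IsLocallyConstant (ψ i) ∧ ∀ g h, ψ i (g * h) = ψ i g + ψ i h) ∧
    (∀ i, IsLocallyConstant (ψ' i) ∧ ∀ g h, ψ' i (g * h) = ψ' i g + ψ' i h) ∧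
    IsLocallyConstant b ∧
    ∀ g h, c g h = ∑ i, ψ i g * ψ' i h + (b g + b h - b (g * h))

/-- 2-cocycles (trivial coefficients `ZMod p`) -/
def IsCocycle (p : ℕ) {Γ : Type u} [Group Γ] (c : Γ → Γ → ZMod p) : Prop :=
  ∀ g h k, c g h + c (g * h) k = c h k + c g (h * k)

/-- The theorem of Merkurjev and Suslin for the prime `p`: for each field `F` which contains a
primitive `p`-th root of unity the cup product `H¹ ⊗ H¹ → H²` is surjective for the maximal pro-`p`
Galois group of `F` and the coefficients `ZMod p`. -/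
def MS (p : ℕ) : Prop := ∀ (F : Type u) [Field F] (ζ : F), IsPrimitiveRoot ζ p →
  ∀ c : Gp p F → Gp p F → ZMod p, IsLocallyConstant (fun x : Gp p F × Gp p F => c x.1 x.2) →
    IsCocycle p c → ∃ m, SL p m c

/-- A defining system for the `n`-fold Massey product of `φ 0, …, φ (n - 1)`. The indices are
`0 ≤ i < j ≤ n`, `(i, j) ≠ (0, n)`. -/
structure DefSys (p n : ℕ) {Γ : Type u} [Group Γ] [TopologicalSpace Γ] (φ : ℕ → Γ → ZMod p)
    (a : ℕ → ℕ → Γ → ZMod p) : Prop where
  lc : ∀ i j, i < j → j ≤ n → (i, j) ≠ (0, n) → IsLocallyConstant (a i j)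
  diag : ∀ i < n, a i (i + 1) = φ i
  rel : ∀ i j, i < j → j ≤ n → (i, j) ≠ (0, n) → ∀ g h,
    a i j g + a i j h - a i j (g * h) = ∑ k ∈ Finset.Ioo i j, a i k g * a k j h

/-- the value of a defining system: a 2-cocycle -/
def val (p n : ℕ) {Γ : Type u} (a : ℕ → ℕ → Γ → ZMod p) (g h : Γ) : ZMod p :=
  ∑ k ∈ Finset.Ioo 0 n, a 0 k g * a k n h

/-- The answer. -/
def ANSWER : Prop := (∀ p : ℕ, p.Prime → MS.{u} p) → ∀ (p n : ℕ), p.Prime → 2 ≤ n →
  ∃ M : ℕ, ∀ (F : Type u) [Field F] (ζ : F), IsPrimitiveRoot ζ p →
    ∀ (φ : ℕ → Gp p F → ZMod p) (a : ℕ → ℕ → Gp p F → ZMod p), DefSys p n φ a →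
      SL p M (val p n a)

/-! ## ultraproducts of fields -/

section
variable (K : ℕ → Type u) [∀ N, Field (K N)] (U : Ultrafilter ℕ)

/-- the ideal of the sequences which are eventually zero -/
def UI : Ideal (∀ N, K N) where
  carrier := {x | ∀ᶠ N in U, x N = 0}
  add_mem' := fun {a b} ha hb => by
    filter_upwards [ha, hb] with N h1 h2
    rw [Pi.add_apply, h1, h2, add_zero]
  zero_mem' := Filter.Eventually.of_forall fun _ => rfl
  smul_mem' := fun c x hx => by
    filter_upwards [hx] with N h
    rw [smul_eq_mul, Pi.mul_apply, h, mul_zero]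

/-- the ultraproduct -/
abbrev Ul : Type u := (∀ N, K N) ⧸ UI K U

/-- the class of a sequence -/
abbrev cls (x : ∀ N, K N) : Ul K U := Ideal.Quotient.mk (UI K U) x

theorem cls_eq_zero (x : ∀ N, K N) : cls K U x = 0 ↔ ∀ᶠ N in U, x N = 0 :=
  Ideal.Quotient.eq_zero_iff_mem

theorem cls_eq (x y : ∀ N, K N) : cls K U x = cls K U y ↔ ∀ᶠ N in U, x N = y N := by
  rw [← sub_eq_zero, ← map_sub, cls_eq_zero]
  refine Filter.eventually_congr (Filter.Eventually.of_forall fun N => ?_)
  rw [Pi.sub_apply, sub_eq_zero]

theorem cls_surj (x : Ul K U) : ∃ y, cls K U y = x := Ideal.Quotient.mk_surjective x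

instance : Nontrivial (Ul K U) := by
  refine ⟨⟨1, 0, fun h => ?_⟩⟩
  have h1 : cls K U 1 = 0 := h
  rw [cls_eq_zero] at h1
  obtain ⟨N, hN⟩ := h1.exists
  exact one_ne_zero hN

open scoped Classical in
noncomputable instance : Field (Ul K U) :=
  { (inferInstance : CommRing (Ul K U)), (inferInstance : Nontrivial (Ul K U)) with
    inv := fun x => cls K U fun N => (Classical.choose (cls_surj K U x) N)⁻¹
    mul_inv_cancel := by
      intro x hx
      obtain ⟨y, hy⟩ : ∃ y, y = Classical.choose (cls_surj K U x) := ⟨_, rfl⟩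
      have h1 : cls K U y = x := by rw [hy]; exact Classical.choose_spec (cls_surj K U x)
      show x * cls K U (fun N => (Classical.choose (cls_surj K U x) N)⁻¹) = 1
      rw [← hy, ← h1, ← map_mul, ← map_one (Ideal.Quotient.mk (UI K U))]
      have h2 : ¬ ∀ᶠ N in U, y N = 0 := by
        intro h
        exact hx (by rw [← h1]; exact (cls_eq_zero K U y).2 h)
      have h3 : ∀ᶠ N in U, ¬ y N = 0 := Ultrafilter.eventually_not.2 h2
      refine (cls_eq K U _ _).2 ?_
      filter_upwards [h3] with N hN
      exact mul_inv_cancel₀ hN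
    inv_zero := by
      obtain ⟨y, hy⟩ : ∃ y, y = Classical.choose (cls_surj K U 0) := ⟨_, rfl⟩
      have h1 : cls K U y = 0 := by rw [hy]; exact Classical.choose_spec (cls_surj K U 0)
      show cls K U (fun N => (Classical.choose (cls_surj K U 0) N)⁻¹) = 0
      rw [← hy, cls_eq_zero]
      filter_upwards [(cls_eq_zero K U y).1 h1] with N hN
      rw [hN, inv_zero]
    nnqsmul := _
    nnqsmul_def := fun _ _ => rfl
    qsmul := _
    qsmul_def := fun _ _ => rfl }

end

section
variable (F : ℕ → Type u) [∀ N, Field (F N)] (U : Ultrafilter ℕ)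

/-- the ultraproduct of the separable closures -/
abbrev Om : Type u := Ul (fun N => SeparableClosure (F N)) U

/-- the inclusion of the ultraproduct of the fields in the one of the separable closures -/
noncomputable def inc : Ul F U →+* Om F U :=
  Ideal.quotientMap _ (RingHom.pi fun N =>
    (algebraMap (F N) (SeparableClosure (F N))).comp (Pi.evalRingHom F N)) (by
      intro x hx
      rw [Ideal.mem_comap]
      filter_upwards [hx] with N h
      show algebraMap (F N) (SeparableClosure (F N)) (x N) = 0
      rw [h, map_zero])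

noncomputable instance : Algebra (Ul F U) (Om F U) := (inc F U).toAlgebra

theorem inc_cls (x : ∀ N, F N) : algebraMap (Ul F U) (Om F U) (cls F U x) =
    cls (fun N => SeparableClosure (F N)) U fun N => algebraMap (F N) (SeparableClosure (F N)) (x N) :=
  rfl

/-! ## the pieces on fields -/

/-- **PIECE SC** (30 min). The ultraproduct of separably closed fields is separably closed:
`IsSepClosed.of_exists_root`; lift a monic separable polynomial `f` of degree `d ≥ 1` coefficientwise
to monic polynomials `f_N` of degree `d`; `f` separable means `a f + b f' = 1`, so `f_N` is separable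
for almost all `N`, and it has a root in the separably closed field `Ω_N`. -/
def S_SC : Prop := ∀ (F : ℕ → Type u) [∀ N, Field (F N)] (U : Ultrafilter ℕ), IsSepClosed (Om F U)

/-- the action of sequences of automorphisms on the ultraproduct -/
def Act (A : (∀ N, G (F N)) →* (Om F U ≃ₐ[Ul F U] Om F U)) : Prop :=
  ∀ (g : ∀ N, G (F N)) (x : ∀ N, SeparableClosure (F N)),
    A g (cls _ U x) = cls _ U fun N => g N (x N)

/-- **PIECE ACT** (25 min). The action exists, and its fixed field is `Ul F U`: if `x = cls x_N` is not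
in the image of `Ul F U`, then for almost all `N` the element `x_N` is not in `F_N`, so some `g_N` moves
it (`InfiniteGalois.mem_range_algebraMap_iff_fixed`), and `A (g_N)` moves `x`. -/
def S_ACT : Prop := ∀ (F : ℕ → Type u) [∀ N, Field (F N)] (U : Ultrafilter ℕ),
  ∃ A : (∀ N, G (F N)) →* (Om F U ≃ₐ[Ul F U] Om F U), Act F U A ∧
    ∀ x : Om F U, (∀ g, A g x = x) → x ∈ Set.range (algebraMap (Ul F U) (Om F U))

/-- The restriction homomorphism `R` of sequences of automorphisms to the separable closure of the
ultraproduct, which is embedded by `j` in the ultraproduct of the separable closures. -/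
structure Res (j : SeparableClosure (Ul F U) →ₐ[Ul F U] Om F U)
    (R : (∀ N, G (F N)) →* G (Ul F U)) : Prop where
  comp : ∀ (g : ∀ N, G (F N)) (t : SeparableClosure (Ul F U)) (x : ∀ N, SeparableClosure (F N)),
    j t = cls _ U x → j (R g t) = cls _ U fun N => g N (x N)
  dense : ∀ V : Subgroup (G (Ul F U)), V.Normal → IsOpen (V : Set (G (Ul F U))) →
    ∀ γ, ∃ g, (R g)⁻¹ * γ ∈ V
  fin : ∀ x : ∀ N, SeparableClosure (F N),
    (Set.range fun g : ∀ N, G (F N) => cls (fun N => SeparableClosure (F N)) U fun N => g N (x N)).Finite →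
      ∃ t, j t = cls _ U x

end

/-- **PIECE RES** (40 min). `j` exists (`IsSepClosed.lift`), `R = AlgEquiv.restrictNormalHom` composed with
`A`. `dense`: the closure of the image of `R` is a closed subgroup `H` of `G L`, an element of the
separable closure fixed by `H` is in `L` (by the second part of ACT and injectivity of `j`), so
`H = ⊤` (`InfiniteGalois.fixingSubgroup_fixedField`). `fin`: the polynomial `∏ (X - y)` over the finite
orbit has coefficients fixed by all `A g`, so in `L`, it is separable and has the root `cls x`; it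
splits in the separable closure of `L`, and `j` maps its roots there onto its roots in `Om`. -/
def S_RES : Prop := S_SC.{u} → S_ACT.{u} → ∀ (F : ℕ → Type u) [∀ N, Field (F N)] (U : Ultrafilter ℕ),
  ∃ (j : SeparableClosure (Ul F U) →ₐ[Ul F U] Om F U) (R : (∀ N, G (F N)) →* G (Ul F U)), Res F U j R

/-- **PIECE PRIM** (30 min). An open normal subgroup `V` of an absolute Galois group is the
stabilizer of an element (primitive element of the fixed field; `InfiniteGalois`,
`Field.exists_primitive_element`). -/
def S_PRIM : Prop := ∀ (F : Type u) [Field F] (V : Subgroup (G F)), V.Normal →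
  IsOpen (V : Set (G F)) → ∃ t : SeparableClosure F, ∀ γ : G F, γ t = t ↔ γ ∈ V

/-- **PIECE UP** (40 min). Homomorphisms `ρ N : G (F N) → Q` with open kernels give one on
`G (Ul F U)`. Proof. By PRIM take `x N` with stabilizer `ker (ρ N)`. For `g` in the product the class of
`g N (x N)` depends only on the `U`-limit of `ρ N (g N)` (`Q` is finite), so the orbit is finite, and
`cls x = j t` by `fin`. Let `V` be an open normal subgroup contained in the (open) stabilizer of `t`. If
`R g ∈ V` then `j (R g t) = j t`, so `g N (x N) = x N`, i.e. `ρ N (g N) = 1` for almost all `N`. For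
`γ` take `g` with `(R g)⁻¹ γ ∈ V` (`dense`) and let `ρ γ` be the `U`-limit of `ρ N (g N)`: well defined,
a homomorphism (`V` is normal), `V ≤ ker ρ`, and for `γ = R g` the limit is the one of `ρ N (g N)`. -/
def S_UP : Prop := S_PRIM.{u} → ∀ (F : ℕ → Type u) [∀ N, Field (F N)] (U : Ultrafilter ℕ)
  (j : SeparableClosure (Ul F U) →ₐ[Ul F U] Om F U) (R : (∀ N, G (F N)) →* G (Ul F U)), Res F U j R →
  ∀ (Q : Type u) [Group Q] [Finite Q] (ρ : ∀ N, G (F N) →* Q),
    (∀ N, IsOpen ((ρ N).ker : Set (G (F N)))) →
    ∃ σ : G (Ul F U) →* Q, IsOpen (σ.ker : Set (G (Ul F U))) ∧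
      ∀ g : ∀ N, G (F N), ∀ᶠ N in U, ρ N (g N) = σ (R g)

/-- **PIECE DOWN** (40 min). A homomorphism `σ` from `G (Ul F U)` to a finite group with open kernel comes
from maps `ρ N` on the `G (F N)`. Proof. By PRIM take `t` with stabilizer `ker σ`, for each `q` in the
image of `σ` take `γ_q` with `σ γ_q = q` (`γ_1 = 1`) and `x_q` with `j (γ_q t) = cls x_q`. Let `ρ N g` be a
`q` in the image with `g (x_1 N) = x_q N` if there is one, else `1`. For `q ≠ q'` the elements `x_q N`,
`x_q' N` are distinct for almost all `N`, and for `q = σ (R g)` one has `R g t = γ_q t`, so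
`g N (x_1 N) = x_q N` for almost all `N`. `ρ N g` depends only on `g (x_1 N)`. -/
def S_DOWN : Prop := S_PRIM.{u} → ∀ (F : ℕ → Type u) [∀ N, Field (F N)] (U : Ultrafilter ℕ)
  (j : SeparableClosure (Ul F U) →ₐ[Ul F U] Om F U) (R : (∀ N, G (F N)) →* G (Ul F U)), Res F U j R →
  ∀ (Q : Type u) [Group Q] [Finite Q] (σ : G (Ul F U) →* Q), IsOpen (σ.ker : Set (G (Ul F U))) →
    ∃ ρ : ∀ N, G (F N) → Q, (∀ N, IsLocallyConstant (ρ N)) ∧
      ∀ g : ∀ N, G (F N), ∀ᶠ N in U, ρ N (g N) = σ (R g)

/-! ## the pieces on topological groups -/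

/-- **PIECE P1** (40 min). Finitely many locally constant functions on `Gp p F` factor through
`G F ⧸ N`, `N` open normal of `p`-power index. Proof. `G F` is compact; by the Krull topology (or
compactness) there is an open normal subgroup `V` such that the functions `f i ∘ mk` are invariant under `V`,
they are also invariant under `Np`; so they are invariant under `V ⊔ Np`. By compactness
of the closed set complement of `V` a finite intersection of open normal subgroups of `p`-power
index is contained in `V ⊔ Np`; its index is a `p`-power (`Subgroup.index_inf_le`... or: the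
quotient embeds in a product of `p`-groups), take it as `N`. -/
def S_P1 : Prop := ∀ (p : ℕ) (F : Type u) [Field F], p.Prime → ∀ (ι : Type) [Finite ι]
  (f : ι → Gp p F → ZMod p), (∀ i, IsLocallyConstant (f i)) →
  ∃ N : Subgroup (G F), N.Normal ∧ IsOpen (N : Set (G F)) ∧ (∃ k, N.index = p ^ k) ∧
    ∀ i, ∀ g h : G F, g⁻¹ * h ∈ N → f i (QuotientGroup.mk g) = f i (QuotientGroup.mk h)

/-- **PIECE P2** (20 min). A homomorphism `ρ` from `G F` to a finite group with open kernel whose image
consists of elements of `p`-power order factors through `Gp p F`, continuously. -/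
def S_P2 : Prop := ∀ (p : ℕ) (F : Type u) [Field F], p.Prime → ∀ (Q : Type u) [Group Q] [Finite Q]
  (ρ : G F →* Q), IsOpen (ρ.ker : Set (G F)) → (∀ g, ∃ k, ρ g ^ p ^ k = 1) →
  ∃ ρ' : Gp p F →* Q, (∀ g : G F, ρ' (QuotientGroup.mk g) = ρ g) ∧ IsLocallyConstant ρ'

/-! ## assembly -/

/-- the bound for one finite group and one cochain on it -/
def MAINQ : Prop := ∀ p : ℕ, p.Prime → MS.{u} p → ∀ (Q : Type u) [Group Q] [Finite Q]
  (c : Q → Q → ZMod p), ∃ M : ℕ, ∀ (F : Type u) [Field F] (ζ : F), IsPrimitiveRoot ζ p →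
    ∀ ρ : Gp p F →* Q, IsLocallyConstant ρ → IsCocycle p (fun g h => c (ρ g) (ρ h)) →
      SL p M (fun g h => c (ρ g) (ρ h))

/-- **PIECE MAIN** (60 min, helper10). -/
def S_MAIN : Prop := S_SC.{u} → S_ACT.{u} → S_RES.{u} → S_PRIM.{u} → S_UP.{u} → S_DOWN.{u} →
  S_P1.{u} → S_P2.{u} → MAINQ.{u}

/-- **PIECE FIN** (50 min). From defining systems to homomorphisms to a finite group. With
`Q = (Matrix (Fin n) (Fin n) (ZMod p))ˣ × (Matrix (Fin n) (Fin n) (ZMod p))ˣ` (in `ULift`) and the unitriangular
matrices with the entries `- a i j` resp. (better: choose the signs so that it is multiplicative: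
`a i j (g h) = a i j g + a i j h - ∑ a i k g * a k j h`, so the matrix `1 - (a i j)` is multiplicative:
the entries above the diagonal are `- a i j`), `A g = (..)_{0 ≤ i, j ≤ n - 1}` and `B g = (..)_{1 ≤ i, j ≤ n}`,
`ρ g = (A g, B g)`. `c (q, q') = ∑_{0 < k < n} (q.1)_{0, k} (q'.2)_{k - 1, n - 1}` (the signs cancel).
`val` is a cocycle (from `rel`). -/
def S_FIN : Prop := MAINQ.{u} → ANSWER.{u}

end Pool.Agent.Helper10K1.ML
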